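import Pool.Agent.X254.MC.Generic2

set_option autoImplicit false

namespace Pool.Agent.X254.MC

open Matrix Finset

variable {V : Type*} [Fintype V] [DecidableEq V] {G : Set (Sym2 V)} {F : Set (Matrix V V ℝ)}

lemma neg_inv' {A : Matrix V V ℝ} (hA : IsUnit A) : (-A)⁻¹ = -A⁻¹ := by
  apply Matrix.inv_eq_right_inv
  rw [neg_mul_neg, mul_nonsing_inv A ((isUnit_iff_isUnit_det A).1 hA)]

lemma nice_neg (hN : Nice G F) : Nice G {B | -B ∈ F} where
  symm B hB := by
    have := hN.symm _ hB
    rw [Matrix.IsSymm, transpose_neg, neg_inj] at this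
    exact this
  unit B hB := by
    have := hN.unit _ hB
    exact (IsUnit.neg_iff B).1 this
  free B hB u v h t := by
    have := hN.free _ hB u v h (-t)
    rw [Set.mem_ofPred_eq, neg_add, ← neg_smul]
    exact this
  opn B hB D hD := by
    obtain ⟨η, h1, h2⟩ := hN.opn _ hB D hD
    refine ⟨η, h1, fun t ht => ?_⟩
    have := h2 (-t) (by rw [abs_neg]; exact ht)
    rw [Set.mem_ofPred_eq, neg_add, ← neg_smul]
    exact this

lemma inertia_total {A : Matrix V V ℝ} (hu : IsUnit A) {m n : ℕ} (h : HasInertia A m n) :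
    m + n = Fintype.card V := by
  obtain ⟨hA, h1, h2⟩ := h
  rw [← h1, ← h2, ← card_union_of_disjoint]
  · rw [← card_univ]
    congr 1
    ext i
    simp only [mem_union, mem_filter, mem_univ, true_and, iff_true]
    have hne : hA.eigenvalues i ≠ 0 := by
      intro h0
      have hdet := hA.det_eq_prod_eigenvalues
      have : A.det = 0 := by
        rw [hdet]
        apply prod_eq_zero (mem_univ i)
        rw [h0]; simp
      exact ((isUnit_iff_isUnit_det A).1 hu).ne_zero this
    rcases lt_or_gt_of_ne hne with h | h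
    · right; exact h
    · left; exact h
  · rw [disjoint_left]
    intro i hi hi'
    rw [mem_filter] at hi hi'
    linarith [hi.2, hi'.2]

theorem generic (hN : Nice G F) {A : Matrix V V ℝ} (hA : A ∈ F) {m n : ℕ}
    (h : HasInertia A m n) : ∃ R : Finset V, R.card = m ∧ (univ \ R).card = n ∧ Proper G R := by
  classical
  have hF : F.Nonempty := ⟨A, hA⟩
  have hu := hN.unit A hA
  have hsym := hN.symm A hA
  have hB := inv_symm hsym
  set R0 : Finset V := univ.filter (fun u => NI G u ∧ 0 < A⁻¹ u u) with hR0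
  set B0 : Finset V := univ.filter (fun u => NI G u ∧ A⁻¹ u u < 0) with hB0
  have hpR : PDS A R0 := by
    apply pds_main hN hF R0 A hA
    intro s hs
    rw [hR0, mem_filter] at hs
    exact hs.2
  have hN' := nice_neg hN
  have hAn : -A ∈ {B | -B ∈ F} := by
    rw [Set.mem_ofPred_eq, neg_neg]; exact hA
  have hpB : PDS (-A) B0 := by
    apply pds_main hN' ⟨_, hAn⟩ B0 (-A) hAn
    intro s hs
    rw [hB0, mem_filter] at hs
    refine ⟨hs.2.1, ?_⟩
    rw [neg_inv' hu, Matrix.neg_apply]
    linarith [hs.2.2]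
  have hform : ∀ z : V → ℝ, (A⁻¹ *ᵥ z) ⬝ᵥ (A *ᵥ (A⁻¹ *ᵥ z)) = z ⬝ᵥ (A⁻¹ *ᵥ z) := by
    intro z
    rw [mul_inv_vec hu, dotProduct_comm]
  have hm : R0.card ≤ m := by
    have := le_pos h ((Matrix.mulVecLin A⁻¹) ∘ₗ (extS R0)) (by
      intro c hc
      rw [LinearMap.comp_apply, mulVecLin_apply, hform]
      exact hpR _ (extS_not R0 c) (extS_ne R0 hc))
    rwa [Fintype.card_coe] at this
  have hn : B0.card ≤ n := by
    have := le_neg h ((Matrix.mulVecLin A⁻¹) ∘ₗ (extS B0)) (by
      intro c hc
      rw [LinearMap.comp_apply, mulVecLin_apply, hform]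
      have := hpB _ (extS_not B0 c) (extS_ne B0 hc)
      rw [neg_inv' hu, neg_mulVec, dotProduct_neg] at this
      linarith)
    rwa [Fintype.card_coe] at this
  have ht := inertia_total hu h
  have hdis : R0 ⊆ univ \ B0 := by
    intro u hu'
    rw [mem_sdiff]
    refine ⟨mem_univ _, ?_⟩
    rw [hR0, mem_filter] at hu'
    rw [hB0, mem_filter]
    rintro ⟨_, _, h3⟩
    linarith [hu'.2.2]
  have hcard : (univ \ B0).card = Fintype.card V - B0.card := by
    rw [card_sdiff_of_subset (subset_univ _), card_univ]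
  obtain ⟨R, h1, h2, h3⟩ := exists_subsuperset_card_eq hdis hm (by rw [hcard]; omega)
  refine ⟨R, h3, ?_, ?_⟩
  · rw [card_sdiff_of_subset (subset_univ _), card_univ, h3]; omega
  · intro i j hij
    have hji : s(j, i) ∉ G := by rw [Sym2.eq_swap]; exact hij
    have hlt := edge_ne hN hF hij hA
    have hi : NI G i := ⟨j, hij⟩
    have hj : NI G j := ⟨i, hji⟩
    have mR : ∀ u, NI G u → 0 < A⁻¹ u u → u ∈ R := by
      intro u hu1 hu2
      apply h1
      rw [hR0, mem_filter]; exact ⟨mem_univ _, hu1, hu2⟩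
    have mB : ∀ u, NI G u → A⁻¹ u u < 0 → u ∉ R := by
      intro u hu1 hu2 hu3
      have := h2 hu3
      rw [mem_sdiff] at this
      apply this.2
      rw [hB0, mem_filter]; exact ⟨mem_univ _, hu1, hu2⟩
    rcases lt_or_gt_of_ne (ni_ne hN hF hi hA) with h4 | h4
    · have h5 : 0 < A⁻¹ j j := by nlinarith
      exact ⟨fun h => absurd h (mB i hi h4), fun h => absurd (mR j hj h5) h⟩
    · have h5 : A⁻¹ j j < 0 := by nlinarith
      exact ⟨fun _ => mB j hj h5, fun _ => mR i hi h4⟩

/-- completions of the interior partial matrices -/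
def Fam (G : Set (Sym2 V)) : Set (Matrix V V ℝ) :=
  {A | ∃ M ∈ interior {M : G → ℝ | MinRank G M (Fintype.card V)}, IsCompletion G M A}

lemma EE_symm (u v : V) : (EE u v).IsSymm := by
  rw [Matrix.IsSymm, EE, transpose_add, transpose_vecMulVec, transpose_vecMulVec, add_comm]

lemma EE_apply_zero {u v i j : V} (h : s(i, j) ≠ s(u, v)) : EE u v i j = 0 := by
  unfold EE
  rw [Matrix.add_apply, vecMulVec_apply, vecMulVec_apply]
  by_cases h1 : i = u
  · have h2 : j ≠ v := by rintro rfl; exact h (by rw [h1])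
    rw [Pi.single_eq_of_ne h2, mul_zero, zero_add]
    by_cases h3 : i = v
    · have h4 : j ≠ u := by rintro rfl; exact h (by rw [h3, Sym2.eq_swap])
      rw [Pi.single_eq_of_ne h4, mul_zero]
    · rw [Pi.single_eq_of_ne h3, zero_mul]
  · rw [Pi.single_eq_of_ne h1, zero_mul, zero_add]
    by_cases h3 : i = v
    · have h4 : j ≠ u := by rintro rfl; exact h (by rw [h3, Sym2.eq_swap])
      rw [Pi.single_eq_of_ne h4, mul_zero]
    · rw [Pi.single_eq_of_ne h3, zero_mul]

theorem nice_fam (G : Set (Sym2 V)) : Nice G (Fam G) where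
  symm A hA := by
    obtain ⟨M, _, h⟩ := hA
    exact h.1
  unit A hA := by
    obtain ⟨M, hM, h⟩ := hA
    have h2 : M ∈ {M : G → ℝ | MinRank G M (Fintype.card V)} := interior_subset hM
    exact (minRank_iff G M).1 h2 A h
  free A hA u v huv t := by
    obtain ⟨M, hM, h⟩ := hA
    refine ⟨M, hM, ?_, ?_⟩
    · rw [Matrix.IsSymm, transpose_add, transpose_smul, h.1.eq, (EE_symm u v).eq]
    · intro i j hij
      rw [Matrix.add_apply, Matrix.smul_apply, EE_apply_zero (by
        intro he; rw [he] at hij; exact huv hij), smul_zero, add_zero]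
      exact h.2 i j hij
  opn A hA D hD := by
    obtain ⟨M, hM, h⟩ := hA
    let MD : G → ℝ := fun e => Sym2.lift ⟨fun i j => D i j, fun i j => (hD.apply i j).symm⟩
      (e : Sym2 V)
    have hMD : ∀ i j (hij : s(i, j) ∈ G), MD ⟨s(i, j), hij⟩ = D i j := fun i j hij => rfl
    let g : ℝ → (G → ℝ) := fun t => M + t • MD
    have hg : Continuous g := continuous_const.add (continuous_id.smul continuous_const)
    have hopen : IsOpen (g ⁻¹' (interior {M : G → ℝ | MinRank G M (Fintype.card V)})) :=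
      isOpen_interior.preimage hg
    have h0 : (0 : ℝ) ∈ g ⁻¹' (interior {M : G → ℝ | MinRank G M (Fintype.card V)}) := by
      rw [Set.mem_preimage]
      have : g 0 = M := by simp [g]
      rw [this]; exact hM
    obtain ⟨η, hη, hball⟩ := Metric.isOpen_iff.1 hopen 0 h0
    refine ⟨η, hη, fun t ht => ⟨g t, ?_, ?_, ?_⟩⟩
    · apply hball
      rw [Metric.mem_ball, dist_zero_right, Real.norm_eq_abs]
      exact ht
    · rw [Matrix.IsSymm, transpose_add, transpose_smul, h.1.eq, hD.eq]
    · intro i j hij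
      rw [Matrix.add_apply, Matrix.smul_apply, h.2 i j hij]
      rfl

/-- the positive result -/
theorem interior_result (G : Set (Sym2 V)) (M : G → ℝ)
    (hM : M ∈ interior {M : G → ℝ | MinRank G M (Fintype.card V)}) (A : Matrix V V ℝ)
    (hA : IsCompletion G M A) (m n : ℕ) (h : HasInertia A m n) :
    ∃ R : Finset V, R.card = m ∧ (univ \ R).card = n ∧ Proper G R :=
  generic (nice_fam G) ⟨M, hM, hA⟩ h

end Pool.Agent.X254.MC
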