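import Pool.Agent.X254.MC.Defs

set_option autoImplicit false

/-! The counterexample: the complement of `G` is the star with centre `0` and leaves `1, 2, 3, 4`
together with the isolated vertex `5`. -/

namespace Pool.Agent.X254.MC

open Matrix Finset

/-- all pairs and loops except the four edges of the star -/
def G6 : Set (Sym2 (Fin 6)) :=
  {e | e ≠ s(0, 1) ∧ e ≠ s(0, 2) ∧ e ≠ s(0, 3) ∧ e ≠ s(0, 4)}

/-- the prescribed entries -/
def M0 : Fin 6 → Fin 6 → ℝ :=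
  !![0, 0, 0, 0, 0, 1; 0, 1, 0, 0, 0, 0; 0, 0, 1, 0, 0, 0; 0, 0, 0, -1, 0, 0;
    0, 0, 0, 0, -1, 0; 1, 0, 0, 0, 0, 0]

lemma M0_symm (i j : Fin 6) : M0 i j = M0 j i := by
  fin_cases i <;> fin_cases j <;> simp [M0]

/-- the partial matrix -/
def M6 : G6 → ℝ := fun e => Sym2.lift ⟨M0, M0_symm⟩ (e : Sym2 (Fin 6))

/-- the completions -/
def Ax (x y z t : ℝ) : Matrix (Fin 6) (Fin 6) ℝ :=
  !![0, x, y, z, t, 1; x, 1, 0, 0, 0, 0; y, 0, 1, 0, 0, 0; z, 0, 0, -1, 0, 0;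
    t, 0, 0, 0, -1, 0; 1, 0, 0, 0, 0, 0]

lemma completion_eq {A : Matrix (Fin 6) (Fin 6) ℝ} (h : IsCompletion G6 M6 A) :
    A = Ax (A 0 1) (A 0 2) (A 0 3) (A 0 4) := by
  have h1 : ∀ i j : Fin 6, (s(i, j) ≠ s(0, 1) ∧ s(i, j) ≠ s(0, 2) ∧ s(i, j) ≠ s(0, 3) ∧
      s(i, j) ≠ s(0, 4)) → A i j = M0 i j := by
    intro i j hij
    exact h.2 i j hij
  have h2 : ∀ i j, A i j = A j i := fun i j => (h.1.apply i j).symm
  ext i j
  fin_cases i <;> fin_cases j <;>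
    first
    | exact (h1 _ _ (by decide)).trans (by simp [M0, Ax])
    | (simp [Ax]; done)
    | exact (h2 _ _).trans (by simp [Ax])

lemma quad6 (x y z t : ℝ) (v : Fin 6 → ℝ) : v ⬝ᵥ (Ax x y z t *ᵥ v) =
    2 * v 0 * (x * v 1 + y * v 2 + z * v 3 + t * v 4 + v 5) + v 1 ^ 2 + v 2 ^ 2 - v 3 ^ 2 - v 4 ^ 2 := by
  simp only [Ax, dotProduct, mulVec, Fin.sum_univ_succ, Fin.sum_univ_zero]
  simp [Fin.succ]
  ring

end Pool.Agent.X254.MC
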