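import Pool.Agent.X254.MC.Counter

set_option autoImplicit false

namespace Pool.Agent.X254.MC

open Matrix Finset

lemma Ax_isUnit (x y z t : ℝ) : IsUnit (Ax x y z t) := by
  apply isUnit_of_inj
  intro v hv
  have h : ∀ i, (Ax x y z t *ᵥ v) i = 0 := fun i => by rw [hv]; rfl
  have r0 := h 0
  have r1 := h 1
  have r2 := h 2
  have r3 := h 3
  have r4 := h 4
  have r5 := h 5
  simp only [Ax, dotProduct, mulVec, Fin.sum_univ_succ, Fin.sum_univ_zero] at r0 r1 r2 r3 r4 r5
  simp [Fin.succ] at r0 r1 r2 r3 r4 r5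
  ext i
  fin_cases i
  · exact r5
  · simp only [r5] at r1; simpa using r1
  · simp only [r5] at r2; simpa using r2
  · simp only [r5] at r3; simpa using r3
  · simp only [r5] at r4; simpa using r4
  · simp only [r5] at r0 r1 r2 r3 r4
    simp at r0 r1 r2 r3 r4
    simp only [r1, r2, r3, r4] at r0
    simpa using r0

lemma Ax_symm (x y z t : ℝ) : (Ax x y z t).IsSymm := by
  ext i j
  rw [transpose_apply]
  fin_cases i <;> fin_cases j <;> rfl

/-- the positive definite subspace -/
def phiP (x y : ℝ) : (Fin 3 → ℝ) →ₗ[ℝ] (Fin 6 → ℝ) where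
  toFun c := ![c 0, c 1, c 2, 0, 0, c 0 - x * c 1 - y * c 2]
  map_add' a b := by
    ext i; fin_cases i <;> simp <;> ring
  map_smul' r a := by
    ext i; fin_cases i <;> simp <;> ring

/-- the negative definite subspace -/
def phiN (z t : ℝ) : (Fin 3 → ℝ) →ₗ[ℝ] (Fin 6 → ℝ) where
  toFun c := ![c 0, 0, 0, c 1, c 2, - c 0 - z * c 1 - t * c 2]
  map_add' a b := by
    ext i; fin_cases i <;> simp <;> ring
  map_smul' r a := by
    ext i; fin_cases i <;> simp <;> ring

lemma ne_zero3 {c : Fin 3 → ℝ} (h : c ≠ 0) : 0 < c 0 ^ 2 + c 1 ^ 2 + c 2 ^ 2 := by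
  by_contra hcon
  push Not at hcon
  have h0 : c 0 = 0 := by nlinarith [sq_nonneg (c 0), sq_nonneg (c 1), sq_nonneg (c 2)]
  have h1 : c 1 = 0 := by nlinarith [sq_nonneg (c 0), sq_nonneg (c 1), sq_nonneg (c 2)]
  have h2 : c 2 = 0 := by nlinarith [sq_nonneg (c 0), sq_nonneg (c 1), sq_nonneg (c 2)]
  apply h
  ext i
  fin_cases i
  · exact h0
  · exact h1
  · exact h2

lemma Ax_inertia (x y z t : ℝ) : HasInertia (Ax x y z t) 3 3 := by
  have hA : (Ax x y z t).IsHermitian := by
    rw [Matrix.IsHermitian, conjTranspose_eq_transpose_of_trivial]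
    exact Ax_symm x y z t
  have h0 : HasInertia (Ax x y z t) _ _ := ⟨hA, rfl, rfl⟩
  have hp := le_pos h0 (phiP x y) (by
    intro c hc
    rw [quad6]
    have := ne_zero3 hc
    simp [phiP]
    nlinarith [sq_nonneg (c 0)])
  have hn := le_neg h0 (phiN z t) (by
    intro c hc
    rw [quad6]
    have := ne_zero3 hc
    simp [phiN]
    nlinarith [sq_nonneg (c 0)])
  have hs := inertia_sum_le h0
  rw [Fintype.card_fin] at hp hn hs
  exact ⟨hA, by omega, by omega⟩

theorem M6_minRank : MinRank G6 M6 6 := by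
  have := (minRank_iff G6 M6).2 (by
    intro A hA
    rw [completion_eq hA]
    exact Ax_isUnit _ _ _ _)
  rwa [Fintype.card_fin] at this

theorem M6_inertia (A : Matrix (Fin 6) (Fin 6) ℝ) (hA : IsCompletion G6 M6 A) :
    HasInertia A 3 3 := by
  rw [completion_eq hA]
  exact Ax_inertia _ _ _ _

lemma not_mem_G6 {l : Fin 6} (hl : l = 1 ∨ l = 2 ∨ l = 3 ∨ l = 4) : s(0, l) ∉ G6 := by
  rintro ⟨h1, h2, h3, h4⟩
  rcases hl with rfl | rfl | rfl | rfl
  · exact h1 rfl
  · exact h2 rfl
  · exact h3 rfl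
  · exact h4 rfl

theorem G6_typical : FullRankTypical G6 := by
  apply typical_of_proper G6 {0, 5}
  intro i j hij
  have h : s(i, j) = s(0, 1) ∨ s(i, j) = s(0, 2) ∨ s(i, j) = s(0, 3) ∨ s(i, j) = s(0, 4) := by
    by_contra hcon
    push Not at hcon
    exact hij hcon
  clear hij
  revert i j
  decide

theorem G6_no_coloring (R : Finset (Fin 6)) (hR : Proper G6 R) : R.card ≠ 3 := by
  have h1 := hR 0 1 (not_mem_G6 (by simp))
  have h2 := hR 0 2 (not_mem_G6 (by simp))
  have h3 := hR 0 3 (not_mem_G6 (by simp))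
  have h4 := hR 0 4 (not_mem_G6 (by simp))
  intro hc
  by_cases h0 : (0 : Fin 6) ∈ R
  · have : R ⊆ {0, 5} := by
      intro i hi
      fin_cases i
      · simp
      · exact absurd hi (h1.1 h0)
      · exact absurd hi (h2.1 h0)
      · exact absurd hi (h3.1 h0)
      · exact absurd hi (h4.1 h0)
      · simp
    have := card_le_card this
    rw [hc] at this
    exact absurd this (by decide)
  · have : ({1, 2, 3, 4} : Finset (Fin 6)) ⊆ R := by
      intro i hi
      simp only [mem_insert, mem_singleton] at hi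
      rcases hi with rfl | rfl | rfl | rfl
      · by_contra h; exact h0 (h1.2 h)
      · by_contra h; exact h0 (h2.2 h)
      · by_contra h; exact h0 (h3.2 h)
      · by_contra h; exact h0 (h4.2 h)
    have := card_le_card this
    rw [hc] at this
    exact absurd this (by decide)

end Pool.Agent.X254.MC
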