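import Pool.Agent.X254.MC.Inertia

set_option autoImplicit false

/-! Partial symmetric matrices, completions, typical ranks, bicolorings. -/

namespace Pool.Agent.X254.MC

open Matrix Finset

variable {V : Type*} [Fintype V] [DecidableEq V]

/-- `A` is a completion of the `G`-partial matrix `M`; `G` is the set of edges and loops -/
def IsCompletion (G : Set (Sym2 V)) (M : G → ℝ) (A : Matrix V V ℝ) : Prop :=
  A.IsSymm ∧ ∀ (i j : V) (h : s(i, j) ∈ G), A i j = M ⟨s(i, j), h⟩

/-- `M` is minimally completable to rank `r` -/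
def MinRank (G : Set (Sym2 V)) (M : G → ℝ) (r : ℕ) : Prop :=
  (∃ A, IsCompletion G M A ∧ A.rank = r) ∧ ∀ A, IsCompletion G M A → r ≤ A.rank

/-- `G` is full-rank typical -/
def FullRankTypical (G : Set (Sym2 V)) : Prop :=
  ∃ U : Set (G → ℝ), U.Nonempty ∧ IsOpen U ∧ ∀ M ∈ U, MinRank G M (Fintype.card V)

/-- `R` is the set of red vertices of a proper bicoloring of the complement of `G` -/
def Proper (G : Set (Sym2 V)) (R : Finset V) : Prop :=
  ∀ i j : V, s(i, j) ∉ G → (i ∈ R ↔ j ∉ R)

lemma exists_completion (G : Set (Sym2 V)) (M : G → ℝ) : ∃ A, IsCompletion G M A := by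
  classical
  refine ⟨Matrix.of (fun i j => if h : s(i, j) ∈ G then M ⟨s(i, j), h⟩ else 0), ?_, ?_⟩
  · ext i j
    rw [transpose_apply, Matrix.of_apply, Matrix.of_apply]
    have e : s(j, i) = s(i, j) := Sym2.eq_swap
    by_cases h : s(i, j) ∈ G
    · have h' : s(j, i) ∈ G := by rw [e]; exact h
      rw [dif_pos h', dif_pos h]
      congr 1
      exact Subtype.ext e
    · have h' : s(j, i) ∉ G := by rw [e]; exact h
      rw [dif_neg h', dif_neg h]
  · intro i j h
    rw [Matrix.of_apply, dif_pos h]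

lemma rank_card_iff (A : Matrix V V ℝ) : Fintype.card V ≤ A.rank ↔ IsUnit A := by
  constructor
  · intro h
    rw [← Matrix.mulVec_surjective_iff_isUnit]
    have h1 : LinearMap.range A.mulVecLin = ⊤ := by
      apply Submodule.eq_top_of_finrank_eq
      rw [Module.finrank_fintype_fun_eq_card]
      exact le_antisymm (Matrix.rank_le_card_width A) h
    intro y
    have h2 : y ∈ LinearMap.range A.mulVecLin := by rw [h1]; trivial
    obtain ⟨x, hx⟩ := h2
    exact ⟨x, hx⟩
  · intro h
    rw [Matrix.rank_of_isUnit A h]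

lemma minRank_iff (G : Set (Sym2 V)) (M : G → ℝ) :
    MinRank G M (Fintype.card V) ↔ ∀ A, IsCompletion G M A → IsUnit A := by
  constructor
  · intro h A hA
    exact (rank_card_iff A).1 (h.2 A hA)
  · intro h
    refine ⟨?_, fun A hA => (rank_card_iff A).2 (h A hA)⟩
    obtain ⟨A, hA⟩ := exists_completion G M
    exact ⟨A, hA, Matrix.rank_of_isUnit A (h A hA)⟩

lemma isUnit_of_inj {A : Matrix V V ℝ} (h : ∀ z : V → ℝ, A *ᵥ z = 0 → z = 0) : IsUnit A := by
  rw [← Matrix.mulVec_injective_iff_isUnit]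
  intro x y hxy
  have h1 : A *ᵥ (x - y) = 0 := by
    rw [mulVec_sub]; exact sub_eq_zero.2 hxy
  exact sub_eq_zero.1 (h _ h1)

/-- diagonal dominance with signs -/
lemma isUnit_of_dom {A : Matrix V V ℝ} (hA : A.IsSymm) (R : Finset V)
    (h1 : ∀ i ∈ R, (Fintype.card V : ℝ) < A i i) (h2 : ∀ i ∉ R, A i i < -(Fintype.card V : ℝ))
    (h3 : ∀ i j, i ≠ j → (i ∈ R ↔ j ∈ R) → |A i j| < 1) : IsUnit A := by
  apply isUnit_of_inj
  intro z hz
  by_contra hz0
  let ε : V → ℝ := fun i => if i ∈ R then 1 else -1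
  have hs : ∀ i j, A i j = A j i := fun i j => (hA.apply i j).symm
  have e1 : ∑ i, ∑ j, ε i * A i j * z i * z j = 0 := by
    have : ∀ i, ∑ j, ε i * A i j * z i * z j = ε i * z i * (A *ᵥ z) i := by
      intro i
      rw [mulVec, dotProduct, mul_sum]
      apply sum_congr rfl
      intro j _; ring
    rw [sum_congr rfl (fun i _ => this i), hz]
    simp
  have e2 : ∑ i, ∑ j, ε j * A i j * z i * z j = 0 := by
    rw [sum_comm, ← e1]
    apply sum_congr rfl
    intro i _
    apply sum_congr rfl
    intro j _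
    rw [hs j i]; ring
  have e3 : ∑ i, ∑ j, ((ε i + ε j) / 2 * A i j) * z i * z j = 0 := by
    have : ∀ i j, ((ε i + ε j) / 2 * A i j) * z i * z j =
        (1 / 2) * (ε i * A i j * z i * z j) + (1 / 2) * (ε j * A i j * z i * z j) := by
      intro i j; ring
    simp only [this, sum_add_distrib, ← mul_sum, e1, e2]
    simp
  have e4 : ∀ i j, -(z i ^ 2 + z j ^ 2) / 2 + (if i = j then ε i * A i i * z i ^ 2 else 0) ≤
      ((ε i + ε j) / 2 * A i j) * z i * z j := by
    intro i j
    by_cases hij : i = j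
    · subst hij
      rw [if_pos rfl]
      nlinarith [sq_nonneg (z i)]
    · rw [if_neg hij, add_zero]
      by_cases hR : (i ∈ R ↔ j ∈ R)
      · have h4 := h3 i j hij hR
        have h5 : |(ε i + ε j) / 2 * A i j| ≤ 1 := by
          rw [abs_mul]
          have h6 : |(ε i + ε j) / 2| ≤ 1 := by
            simp only [ε]
            by_cases h7 : i ∈ R
            · rw [if_pos h7, if_pos (hR.1 h7)]; norm_num
            · rw [if_neg h7, if_neg (fun hh => h7 (hR.2 hh))]; norm_num
          calc |(ε i + ε j) / 2| * |A i j| ≤ 1 * 1 :=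
                mul_le_mul h6 h4.le (abs_nonneg _) zero_le_one
            _ = 1 := one_mul 1
        set B := (ε i + ε j) / 2 * A i j
        rw [abs_le] at h5
        nlinarith [sq_nonneg (z i + z j), sq_nonneg (z i - z j)]
      · have h5 : ε i + ε j = 0 := by
          simp only [ε]
          by_cases h7 : i ∈ R
          · rw [if_pos h7, if_neg (fun hh => hR ⟨fun _ => hh, fun _ => h7⟩)]; norm_num
          · rw [if_neg h7, if_pos (by
              by_contra h8; exact hR ⟨fun hh => absurd hh h7, fun hh => absurd hh h8⟩)]; norm_num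
        rw [h5]
        nlinarith [sq_nonneg (z i), sq_nonneg (z j)]
  have e5 : ∑ i, ∑ j, (-(z i ^ 2 + z j ^ 2) / 2 + (if i = j then ε i * A i i * z i ^ 2 else 0)) ≤ 0 := by
    exact le_trans (sum_le_sum (fun i _ => sum_le_sum (fun j _ => e4 i j))) (le_of_eq e3)
  have e6 : ∑ i, ∑ j, (-(z i ^ 2 + z j ^ 2) / 2 + (if i = j then ε i * A i i * z i ^ 2 else 0)) =
      ∑ i, (ε i * A i i - Fintype.card V) * z i ^ 2 := by
    have h4 : ∀ i, ∑ j, (-(z i ^ 2 + z j ^ 2) / 2 + (if i = j then ε i * A i i * z i ^ 2 else 0)) =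
        -(Fintype.card V : ℝ) / 2 * z i ^ 2 - (∑ j, z j ^ 2) / 2 + ε i * A i i * z i ^ 2 := by
      intro i
      rw [sum_add_distrib, sum_ite_eq, if_pos (mem_univ i)]
      congr 1
      have : ∀ j, -(z i ^ 2 + z j ^ 2) / 2 = -(z i ^ 2) / 2 - z j ^ 2 / 2 := by intro j; ring
      rw [sum_congr rfl (fun j _ => this j), sum_sub_distrib, sum_const, card_univ, nsmul_eq_mul,
        sum_div]
      ring
    rw [sum_congr rfl (fun i _ => h4 i), sum_add_distrib, sum_sub_distrib, sum_const, card_univ,
      nsmul_eq_mul, ← mul_sum]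
    simp only [sub_mul, sum_sub_distrib, ← mul_sum]
    ring
  rw [e6] at e5
  have e7 : 0 < ∑ i, (ε i * A i i - Fintype.card V) * z i ^ 2 := by
    obtain ⟨k, hk⟩ : ∃ k, z k ≠ 0 := by
      by_contra hcon; push Not at hcon; exact hz0 (funext hcon)
    have hpos : ∀ i, 0 < ε i * A i i - Fintype.card V := by
      intro i
      simp only [ε]
      by_cases h7 : i ∈ R
      · rw [if_pos h7]; linarith [h1 i h7]
      · rw [if_neg h7]; linarith [h2 i h7]
    apply sum_pos'
    · intro i _
      exact mul_nonneg (hpos i).le (sq_nonneg _)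
    · exact ⟨k, mem_univ _, mul_pos (hpos k) (by positivity)⟩
  linarith

/-- every `G` whose complement has a proper bicoloring is full-rank typical -/
theorem typical_of_proper (G : Set (Sym2 V)) (R : Finset V) (hR : Proper G R) :
    FullRankTypical G := by
  classical
  let O : G → Set ℝ := fun e => if (∃ i, (e : Sym2 V) = s(i, i) ∧ i ∈ R) then
    Set.Ioi (Fintype.card V : ℝ) else if (∃ i, (e : Sym2 V) = s(i, i)) then
    Set.Iio (-(Fintype.card V : ℝ)) else Set.Ioo (-1) 1
  refine ⟨Set.pi Set.univ O, ?_, ?_, ?_⟩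
  · rw [Set.univ_pi_nonempty_iff]
    intro e
    simp only [O]
    split_ifs
    · exact Set.nonempty_Ioi
    · exact Set.nonempty_Iio
    · exact ⟨0, by norm_num⟩
  · apply isOpen_set_pi Set.finite_univ
    intro e _
    simp only [O]
    split_ifs
    · exact isOpen_Ioi
    · exact isOpen_Iio
    · exact isOpen_Ioo
  · intro M hM
    rw [minRank_iff]
    intro A hA
    have hM' : ∀ e : G, M e ∈ O e := fun e => hM e (Set.mem_univ e)
    have hloop : ∀ i : V, s(i, i) ∈ G := by
      intro i
      by_contra h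
      have := hR i i h
      tauto
    apply isUnit_of_dom hA.1 R
    · intro i hi
      have h1 := hM' ⟨s(i, i), hloop i⟩
      rw [hA.2 i i (hloop i)]
      simp only [O] at h1
      rw [if_pos ⟨i, rfl, hi⟩] at h1
      exact h1
    · intro i hi
      have h1 := hM' ⟨s(i, i), hloop i⟩
      rw [hA.2 i i (hloop i)]
      simp only [O] at h1
      rw [if_neg, if_pos ⟨i, rfl⟩] at h1
      · exact h1
      · rintro ⟨j, hj, hj'⟩
        rw [Sym2.eq_iff] at hj
        rcases hj with ⟨h3, _⟩ | ⟨h3, _⟩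
        · rw [h3] at hi; exact hi hj'
        · rw [h3] at hi; exact hi hj'
    · intro i j hij hside
      have hG : s(i, j) ∈ G := by
        by_contra h
        have := hR i j h
        tauto
      have h1 := hM' ⟨s(i, j), hG⟩
      rw [hA.2 i j hG]
      simp only [O] at h1
      have hnd : ∀ k, s(i, j) ≠ s(k, k) := by
        intro k hk
        rw [Sym2.eq_iff] at hk
        rcases hk with ⟨h3, h4⟩ | ⟨h3, h4⟩ <;> exact hij (h3.trans h4.symm)
      rw [if_neg (by rintro ⟨k, hk, _⟩; exact hnd k hk), if_neg (by rintro ⟨k, hk⟩; exact hnd k hk)]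
        at h1
      rw [abs_lt]
      exact ⟨h1.1, h1.2⟩

end Pool.Agent.X254.MC
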