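import Pool.Agent.X254.MC.Defs

set_option autoImplicit false

namespace Pool.Agent.X254.MC

open Matrix Finset

variable {V : Type*} [Fintype V] [DecidableEq V]

/-- `e_u e_vᵀ + e_v e_uᵀ` -/
def EE (u v : V) : Matrix V V ℝ :=
  vecMulVec (Pi.single u 1) (Pi.single v 1) + vecMulVec (Pi.single v 1) (Pi.single u 1)

lemma EE_mulVec (u v : V) (y : V → ℝ) :
    EE u v *ᵥ y = y v • Pi.single u (1 : ℝ) + y u • Pi.single v (1 : ℝ) := by
  unfold EE
  rw [add_mulVec, vecMulVec_mulVec, vecMulVec_mulVec]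
  simp

/-- a family of matrices as obtained from the interior partial matrices -/
structure Nice (G : Set (Sym2 V)) (F : Set (Matrix V V ℝ)) : Prop where
  symm : ∀ A ∈ F, A.IsSymm
  unit : ∀ A ∈ F, IsUnit A
  free : ∀ A ∈ F, ∀ u v, s(u, v) ∉ G → ∀ t : ℝ, A + t • EE u v ∈ F
  opn : ∀ A ∈ F, ∀ D : Matrix V V ℝ, D.IsSymm → ∃ η : ℝ, 0 < η ∧ ∀ t : ℝ, |t| < η → A + t • D ∈ F

/-- the inverse is positive definite on vectors supported on `S` -/
def PDS (A : Matrix V V ℝ) (S : Finset V) : Prop :=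
  ∀ z : V → ℝ, (∀ i, i ∉ S → z i = 0) → z ≠ 0 → 0 < z ⬝ᵥ (A⁻¹ *ᵥ z)

lemma inv_symm {A : Matrix V V ℝ} (hA : A.IsSymm) : A⁻¹.IsSymm := by
  rw [Matrix.IsSymm, transpose_nonsing_inv, hA.eq]

lemma form_comm {B : Matrix V V ℝ} (hB : B.IsSymm) (a b : V → ℝ) :
    a ⬝ᵥ (B *ᵥ b) = b ⬝ᵥ (B *ᵥ a) := by
  rw [dotProduct_mulVec, ← mulVec_transpose, hB.eq, dotProduct_comm]

lemma mul_inv_vec {A : Matrix V V ℝ} (hA : IsUnit A) (x : V → ℝ) : A *ᵥ (A⁻¹ *ᵥ x) = x := by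
  rw [mulVec_mulVec, mul_nonsing_inv A ((isUnit_iff_isUnit_det A).1 hA), one_mulVec]

lemma inv_mul_vec {A : Matrix V V ℝ} (hA : IsUnit A) (x : V → ℝ) : A⁻¹ *ᵥ (A *ᵥ x) = x := by
  rw [mulVec_mulVec, nonsing_inv_mul A ((isUnit_iff_isUnit_det A).1 hA), one_mulVec]

lemma dot_supp {S : Finset V} {a b : V → ℝ} (ha : ∀ i, i ∉ S → a i = 0) (hb : ∀ i ∈ S, b i = 0) :
    a ⬝ᵥ b = 0 := by
  unfold dotProduct
  apply sum_eq_zero
  intro i _
  by_cases hi : i ∈ S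
  · rw [hb i hi, mul_zero]
  · rw [ha i hi, zero_mul]

lemma key {A : Matrix V V ℝ} (hsym : A.IsSymm) (hA : IsUnit A) {S : Finset V} {v w : V}
    (hvw : v ≠ w) (hv : v ∉ S) (hw : w ∉ S)
    (hu : ∀ t : ℝ, IsUnit (A + t • EE v w)) (hpd : ∀ t : ℝ, PDS (A + t • EE v w) S)
    {a b : V → ℝ} (ha : ∀ i, i ∉ S → a i = 0) (hb : ∀ i, i ∉ S → b i = 0)
    (hva : ∀ i ∈ S, (A⁻¹ *ᵥ (Pi.single v 1 + a)) i = 0)
    (hwb : ∀ i ∈ S, (A⁻¹ *ᵥ (Pi.single w 1 + b)) i = 0) :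
    ¬ 0 < ((Pi.single v 1 + a) ⬝ᵥ (A⁻¹ *ᵥ (Pi.single v 1 + a))) *
      ((Pi.single w 1 + b) ⬝ᵥ (A⁻¹ *ᵥ (Pi.single w 1 + b))) := by
  intro hpos
  have hB := inv_symm hsym
  set vh : V → ℝ := Pi.single v 1 + a with hvh
  set wh : V → ℝ := Pi.single w 1 + b with hwh
  set sv := vh ⬝ᵥ (A⁻¹ *ᵥ vh)
  set sw := wh ⬝ᵥ (A⁻¹ *ᵥ wh)
  set m := vh ⬝ᵥ (A⁻¹ *ᵥ wh) with hm
  have hm' : wh ⬝ᵥ (A⁻¹ *ᵥ vh) = m := form_comm hB _ _
  obtain ⟨r, hr, hrm⟩ : ∃ r : ℝ, r ^ 2 = sv * sw ∧ r - m ≠ 0 := by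
    have h1 : Real.sqrt (sv * sw) ^ 2 = sv * sw := Real.sq_sqrt hpos.le
    have h2 : 0 < Real.sqrt (sv * sw) := Real.sqrt_pos.2 hpos
    by_cases h3 : Real.sqrt (sv * sw) - m = 0
    · refine ⟨-Real.sqrt (sv * sw), by rw [neg_sq, h1], ?_⟩
      intro h4
      linarith
    · exact ⟨_, h1, h3⟩
  set t := (r - m)⁻¹ with ht
  have htm : 1 + t * m = t * r := by
    rw [ht]; field_simp; ring
  set ζ : V → ℝ := sw • vh + (-r) • wh with hζ
  set y := A⁻¹ *ᵥ ζ with hy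
  have hyS : ∀ i ∈ S, y i = 0 := by
    intro i hi
    rw [hy, hζ, mulVec_add, mulVec_smul, mulVec_smul, Pi.add_apply, Pi.smul_apply, Pi.smul_apply,
      hva i hi, hwb i hi]
    simp
  have hav : a ⬝ᵥ y = 0 := dot_supp ha hyS
  have hbw : b ⬝ᵥ y = 0 := dot_supp hb hyS
  have hyv : y v = sw * sv + (-r) * m := by
    have h1 : vh ⬝ᵥ y = y v := by
      rw [hvh, add_dotProduct, hav, add_zero, single_dotProduct, one_mul]
    rw [← h1, hy, hζ, mulVec_add, mulVec_smul, mulVec_smul, dotProduct_add, dotProduct_smul,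
      dotProduct_smul]
    rfl
  have hyw : y w = sw * m + (-r) * sw := by
    have h1 : wh ⬝ᵥ y = y w := by
      rw [hwh, add_dotProduct, hbw, add_zero, single_dotProduct, one_mul]
    rw [← h1, hy, hζ, mulVec_add, mulVec_smul, mulVec_smul, dotProduct_add, dotProduct_smul,
      dotProduct_smul, hm']
    rfl
  have e1 : t * y w = -sw := by
    rw [hyw]
    have : t * (sw * m + -r * sw) = sw * (1 + t * m) - sw - sw * (t * r) := by ring
    rw [this, htm]; ring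
  have e2 : t * y v = r := by
    rw [hyv]
    have : t * (sw * sv + -r * m) = t * (sv * sw) - r * (1 + t * m) + r := by ring
    rw [this, htm, ← hr]; ring
  set ξ : V → ℝ := sw • a + (-r) • b with hξ
  have hAy : (A + t • EE v w) *ᵥ y = ξ := by
    rw [add_mulVec, smul_mulVec, EE_mulVec, smul_add, smul_smul, smul_smul, e1, e2, hy,
      mul_inv_vec hA, hζ, hξ, hvh, hwh]
    ext i
    simp only [Pi.add_apply, Pi.smul_apply, smul_eq_mul]
    ring
  have hy2 : (A + t • EE v w)⁻¹ *ᵥ ξ = y := by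
    rw [← hAy, inv_mul_vec (hu t)]
  have hξS : ∀ i, i ∉ S → ξ i = 0 := by
    intro i hi
    rw [hξ, Pi.add_apply, Pi.smul_apply, Pi.smul_apply, ha i hi, hb i hi]; simp
  have hξ0 : ξ = 0 := by
    by_contra h
    have h1 := hpd t ξ hξS h
    rw [hy2, dot_supp hξS hyS] at h1
    exact lt_irrefl _ h1
  have hy0 : y = 0 := by rw [← hy2, hξ0, mulVec_zero]
  have hζ0 : ζ = 0 := by rw [← mul_inv_vec hA ζ, ← hy, hy0, mulVec_zero]
  have hsw : sw = 0 := by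
    have h1 : ζ v = 0 := by rw [hζ0]; rfl
    rw [hζ, hvh, hwh] at h1
    simp only [Pi.add_apply, Pi.smul_apply, smul_eq_mul, Pi.single_eq_same, ha v hv, hb v hv,
      Pi.single_eq_of_ne hvw] at h1
    linarith
  rw [hsw, mul_zero] at hpos
  exact lt_irrefl _ hpos

/-- extension by zero -/
def extS (S : Finset V) : (S → ℝ) →ₗ[ℝ] (V → ℝ) where
  toFun c i := if h : i ∈ S then c ⟨i, h⟩ else 0
  map_add' a b := by
    ext i
    by_cases h : i ∈ S <;> simp [h]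
  map_smul' r a := by
    ext i
    by_cases h : i ∈ S <;> simp [h]

lemma extS_not (S : Finset V) (c : S → ℝ) (i : V) (hi : i ∉ S) : extS S c i = 0 := by
  simp [extS, hi]

lemma extS_mem (S : Finset V) (c : S → ℝ) (i : S) : extS S c i = c i := by
  simp [extS]

lemma extS_ne (S : Finset V) {c : S → ℝ} (hc : c ≠ 0) : extS S c ≠ 0 := by
  intro h
  apply hc
  ext i
  rw [← extS_mem S c i, h]; rfl

lemma exists_proj {A : Matrix V V ℝ} {S : Finset V} (hpd : PDS A S) (x : V → ℝ) :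
    ∃ a : V → ℝ, (∀ i, i ∉ S → a i = 0) ∧ ∀ i ∈ S, (A⁻¹ *ᵥ (x + a)) i = 0 := by
  let L : (S → ℝ) →ₗ[ℝ] (S → ℝ) :=
    (LinearMap.funLeft ℝ ℝ (fun i : S => (i : V))) ∘ₗ (Matrix.mulVecLin A⁻¹) ∘ₗ (extS S)
  have hL : ∀ c (i : S), L c i = (A⁻¹ *ᵥ (extS S c)) i := fun c i => rfl
  have hinj : Function.Injective L := by
    rw [← LinearMap.ker_eq_bot, LinearMap.ker_eq_bot']
    intro c hc
    by_contra hc0
    have h1 := hpd (extS S c) (extS_not S c) (extS_ne S hc0)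
    rw [dot_supp (extS_not S c) (fun i hi => by rw [← hL c ⟨i, hi⟩, hc]; rfl)] at h1
    exact lt_irrefl _ h1
  obtain ⟨c, hc⟩ := LinearMap.injective_iff_surjective.1 hinj (fun i => -(A⁻¹ *ᵥ x) i)
  refine ⟨extS S c, extS_not S c, fun i hi => ?_⟩
  have h1 := congrFun hc ⟨i, hi⟩
  rw [hL] at h1
  rw [mulVec_add, Pi.add_apply, h1]
  simp

variable {G : Set (Sym2 V)} {F : Set (Matrix V V ℝ)}

/-- changing one diagonal entry of the inverse -/
lemma perturb (hN : Nice G F) {A : Matrix V V ℝ} (hA : A ∈ F) (u : V) (σ : ℝ) (hσ : |σ| = 1) :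
    ∃ η : ℝ, 0 < η ∧ ∃ A' ∈ F, A'⁻¹ = A⁻¹ + (σ * η) • vecMulVec (Pi.single u 1) (Pi.single u 1) := by
  set a : V → ℝ := A *ᵥ Pi.single u 1 with ha
  have hD : (vecMulVec a a).IsSymm := by
    rw [Matrix.IsSymm, transpose_vecMulVec]
  obtain ⟨δ, hδ, hδ'⟩ := hN.opn A hA (vecMulVec a a) hD
  set c := A u u with hc
  set η := min (1 / (2 * (|c| + 1))) (δ / 4) with hη
  have hη0 : 0 < η := lt_min (by positivity) (by positivity)
  have h1 : |σ * η * c| ≤ 1 / 2 := by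
    rw [abs_mul, abs_mul, hσ, one_mul, abs_of_pos hη0]
    calc η * |c| ≤ (1 / (2 * (|c| + 1))) * (|c| + 1) :=
          mul_le_mul (min_le_left _ _) (by linarith) (abs_nonneg _) (by positivity)
      _ = 1 / 2 := by field_simp
  have h2 : 1 / 2 ≤ 1 + σ * η * c := by
    rw [abs_le] at h1; linarith
  set s := σ * η / (1 + σ * η * c) with hs
  have hs1 : s * (1 + σ * η * c) = σ * η := by
    rw [hs]; field_simp
  have hs2 : |(-s)| < δ := by
    rw [abs_neg, hs, abs_div, abs_mul, hσ, one_mul, abs_of_pos hη0,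
      abs_of_pos (by linarith : 0 < 1 + σ * η * c), div_lt_iff₀ (by linarith)]
    have h3 : η ≤ δ / 4 := min_le_right _ _
    nlinarith
  refine ⟨η, hη0, A + (-s) • vecMulVec a a, hδ' _ hs2, ?_⟩
  apply Matrix.inv_eq_right_inv
  have hunit := hN.unit A hA
  have hAinv : A * A⁻¹ = 1 := mul_nonsing_inv A ((isUnit_iff_isUnit_det A).1 hunit)
  have haA : vecMulVec a a * A⁻¹ = vecMulVec a (Pi.single u 1) := by
    rw [vecMulVec_mul]
    congr 1
    rw [ha, ← vecMul_transpose, (hN.symm A hA).eq, vecMul_vecMul, hAinv, vecMul_one]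
  have hAe : A * vecMulVec (Pi.single u 1) (Pi.single u 1) = vecMulVec a (Pi.single u 1) := by
    rw [mul_vecMulVec]
  have hae : vecMulVec a a * vecMulVec (Pi.single u 1) (Pi.single u (1 : ℝ)) =
      c • vecMulVec a (Pi.single u 1) := by
    rw [vecMulVec_mul_vecMulVec]
    have : a ⬝ᵥ Pi.single u (1 : ℝ) = c := by
      rw [dotProduct_single, mul_one, ha, mulVec_single_one]; rfl
    rw [this]
    ext i j
    simp [vecMulVec_apply]
    ring
  rw [add_mul, mul_add, mul_add, hAinv, mul_smul_comm, hAe, smul_mul_assoc, haA, smul_mul_assoc,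
    mul_smul_comm, hae]
  have e1 : (1 : Matrix V V ℝ) + (σ * η) • vecMulVec a (Pi.single u 1) +
      (-s • vecMulVec a (Pi.single u 1) + -s • (σ * η) • c • vecMulVec a (Pi.single u 1)) =
      1 + (σ * η - s * (1 + σ * η * c)) • vecMulVec a (Pi.single u 1) := by
    rw [smul_smul, smul_smul, add_assoc, ← add_smul, ← add_smul]
    congr 2
    ring
  rw [e1, hs1, sub_self, zero_smul, add_zero]

end Pool.Agent.X254.MC
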