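import Pool.Agent.X254.MC.Generic

set_option autoImplicit false

namespace Pool.Agent.X254.MC

open Matrix Finset

variable {V : Type*} [Fintype V] [DecidableEq V] {G : Set (Sym2 V)} {F : Set (Matrix V V ℝ)}

lemma single_form (B : Matrix V V ℝ) (u : V) :
    (Pi.single u (1 : ℝ)) ⬝ᵥ (B *ᵥ (Pi.single u 1)) = B u u := by
  rw [single_dotProduct, one_mul, mulVec_single_one]; rfl

lemma pert_apply (B : Matrix V V ℝ) (u i j : V) (c : ℝ) :
    (B + c • vecMulVec (Pi.single u (1 : ℝ)) (Pi.single u 1)) i j =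
      B i j + c * ((Pi.single u (1 : ℝ) : V → ℝ) i * (Pi.single u (1 : ℝ) : V → ℝ) j) := by
  rw [Matrix.add_apply, Matrix.smul_apply, vecMulVec_apply, smul_eq_mul]

lemma pds_empty (A : Matrix V V ℝ) : PDS A ∅ := by
  intro z hz h
  exact absurd (funext fun i => hz i (notMem_empty i)) h

lemma loop_mem (hN : Nice G F) (hF : F.Nonempty) (u : V) : s(u, u) ∈ G := by
  by_contra hu
  have key0 : ∀ A ∈ F, A⁻¹ u u = 0 := by
    intro A hA
    by_contra hne
    have h1 := hN.unit _ (hN.free A hA u u hu (-1 / (2 * A⁻¹ u u)))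
    set y := A⁻¹ *ᵥ (Pi.single u (1 : ℝ)) with hy
    have hyu : y u = A⁻¹ u u := by rw [hy, mulVec_single_one]; rfl
    have h2 : (A + (-1 / (2 * A⁻¹ u u)) • EE u u) *ᵥ y = 0 := by
      rw [add_mulVec, smul_mulVec, EE_mulVec, hyu, hy, mul_inv_vec (hN.unit A hA)]
      ext i
      simp only [Pi.add_apply, Pi.smul_apply, smul_eq_mul, Pi.zero_apply]
      field_simp
      ring
    have h3 : y = 0 := by rw [← inv_mul_vec h1 y, h2, mulVec_zero]
    exact hne (by rw [← hyu, h3]; rfl)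
  obtain ⟨A, hA⟩ := hF
  obtain ⟨η, hη, A', hA', he⟩ := perturb hN hA u 1 (by simp)
  have h1 := key0 A' hA'
  rw [he, pert_apply, key0 A hA, Pi.single_eq_same] at h1
  linarith

lemma edge_nonpos (hN : Nice G F) (hF : F.Nonempty) {u v : V} (huv : s(u, v) ∉ G)
    {A : Matrix V V ℝ} (hA : A ∈ F) : ¬ 0 < A⁻¹ u u * A⁻¹ v v := by
  have hne : u ≠ v := by
    rintro rfl
    exact huv (loop_mem hN hF u)
  have h := key (S := ∅) (hN.symm A hA) (hN.unit A hA) hne (notMem_empty u) (notMem_empty v)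
    (fun t => hN.unit _ (hN.free A hA u v huv t)) (fun t => pds_empty _) (a := 0) (b := 0)
    (fun i _ => rfl) (fun i _ => rfl) (fun i hi => absurd hi (notMem_empty i))
    (fun i hi => absurd hi (notMem_empty i))
  rw [add_zero, add_zero, single_form, single_form] at h
  exact h

lemma abs_sign (x : ℝ) (hx : x ≠ 0) : ∃ σ : ℝ, |σ| = 1 ∧ 0 < σ * x := by
  rcases lt_or_gt_of_ne hx with h | h
  · exact ⟨-1, by simp, by linarith⟩
  · exact ⟨1, by simp, by linarith⟩

lemma edge_ne (hN : Nice G F) (hF : F.Nonempty) {u v : V} (huv : s(u, v) ∉ G)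
    {A : Matrix V V ℝ} (hA : A ∈ F) : A⁻¹ u u * A⁻¹ v v < 0 := by
  have hne : u ≠ v := by
    rintro rfl
    exact huv (loop_mem hN hF u)
  have hvu : s(v, u) ∉ G := by rw [Sym2.eq_swap]; exact huv
  -- if one is nonzero so is the other
  have one : ∀ {u v : V}, s(u, v) ∉ G → u ≠ v → ∀ {A : Matrix V V ℝ}, A ∈ F → A⁻¹ v v ≠ 0 →
      A⁻¹ u u ≠ 0 := by
    intro u v huv hne A hA hv0 hu0
    obtain ⟨σ, hσ, hσ'⟩ := abs_sign _ hv0
    obtain ⟨η, hη, A', hA', he⟩ := perturb hN hA u σ hσ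
    have h1 := edge_nonpos hN hF huv hA'
    apply h1
    rw [he, pert_apply, pert_apply, hu0, Pi.single_eq_same, Pi.single_eq_of_ne hne.symm]
    have : (0 + σ * η * (1 * 1)) * (A⁻¹ v v + σ * η * (0 * 0)) = η * (σ * A⁻¹ v v) := by ring
    rw [this]
    exact mul_pos hη hσ'
  have hnz : A⁻¹ v v ≠ 0 := by
    intro hv0
    have hu0 : A⁻¹ u u = 0 := by
      by_contra h
      exact one hvu hne.symm hA h hv0
    obtain ⟨η, hη, A', hA', he⟩ := perturb hN hA v 1 (by simp)
    have h1 : A'⁻¹ v v ≠ 0 := by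
      rw [he, pert_apply, hv0, Pi.single_eq_same]
      intro h; linarith
    apply one huv hne hA' h1
    rw [he, pert_apply, hu0, Pi.single_eq_of_ne hne]
    ring
  have hnu := one huv hne hA hnz
  have h2 := edge_nonpos hN hF huv hA
  rcases lt_trichotomy (A⁻¹ u u * A⁻¹ v v) 0 with h | h | h
  · exact h
  · exact absurd h (mul_ne_zero hnu hnz)
  · exact absurd h h2

/-- `u` is not isolated in the complement -/
def NI (G : Set (Sym2 V)) (u : V) : Prop := ∃ v, s(u, v) ∉ G

lemma ni_ne (hN : Nice G F) (hF : F.Nonempty) {u : V} (hu : NI G u) {A : Matrix V V ℝ}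
    (hA : A ∈ F) : A⁻¹ u u ≠ 0 := by
  obtain ⟨v, hv⟩ := hu
  intro h
  have := edge_ne hN hF hv hA
  rw [h, zero_mul] at this
  exact lt_irrefl _ this

lemma sign_const (hN : Nice G F) (hF : F.Nonempty) {v w s : V} (hvw : s(v, w) ∉ G)
    (hs : NI G s) {A : Matrix V V ℝ} (hA : A ∈ F) (h0 : 0 < A⁻¹ s s) (t : ℝ) :
    0 < (A + t • EE v w)⁻¹ s s := by
  by_contra hneg
  push Not at hneg
  let f : ℝ → ℝ := fun t => (A + t • EE v w)⁻¹ s s
  have hf : Continuous f := by
    have h1 : f = fun t => ((A + t • EE v w).det)⁻¹ * (A + t • EE v w).adjugate s s := by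
      funext t
      simp only [f]
      rw [Matrix.inv_def, Ring.inverse_eq_inv', Matrix.smul_apply, smul_eq_mul]
    rw [h1]
    have hc : Continuous fun t : ℝ => A + t • EE v w :=
      continuous_const.add (continuous_id.smul continuous_const)
    apply Continuous.mul
    · apply Continuous.inv₀ hc.matrix_det
      intro t
      have := hN.unit _ (hN.free A hA v w hvw t)
      exact ((isUnit_iff_isUnit_det _).1 this).ne_zero
    · exact hc.matrix_adjugate.matrix_elem s s
  have h00 : f 0 = A⁻¹ s s := by simp [f]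
  have hz : (0 : ℝ) ∈ Set.range f :=
    mem_range_of_exists_le_of_exists_ge hf ⟨t, hneg⟩ ⟨0, by rw [h00]; exact h0.le⟩
  obtain ⟨t0, ht0⟩ := hz
  exact ni_ne hN hF hs (hN.free A hA v w hvw t0) ht0

theorem pds_main (hN : Nice G F) (hF : F.Nonempty) (S : Finset V) :
    ∀ A ∈ F, (∀ s ∈ S, NI G s ∧ 0 < A⁻¹ s s) → PDS A S := by
  induction S using Finset.induction_on with
  | empty => intro A _ _; exact pds_empty A
  | insert w S hwS ih =>
    intro A hA hS
    have hSA : ∀ s ∈ S, NI G s ∧ 0 < A⁻¹ s s := fun s hs => hS s (mem_insert_of_mem hs)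
    obtain ⟨⟨v, hwv⟩, hww⟩ := hS w (mem_insert_self w S)
    have hvw : s(v, w) ∉ G := by rw [Sym2.eq_swap]; exact hwv
    have hne : v ≠ w := by
      rintro rfl
      exact hvw (loop_mem hN hF v)
    have hvv : A⁻¹ v v < 0 := by
      have := edge_ne hN hF hvw hA
      nlinarith
    have hvS : v ∉ S := by
      intro h
      have := (hSA v h).2
      linarith
    have path : ∀ A ∈ F, (∀ s ∈ S, NI G s ∧ 0 < A⁻¹ s s) → ∀ t : ℝ, PDS (A + t • EE v w) S := by
      intro A hA hSA t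
      apply ih _ (hN.free A hA v w hvw t)
      intro s hs
      exact ⟨(hSA s hs).1, sign_const hN hF hvw (hSA s hs).1 hA (hSA s hs).2 t⟩
    have hpd := ih A hA hSA
    have hB := inv_symm (hN.symm A hA)
    obtain ⟨a, ha, hva⟩ := exists_proj hpd (Pi.single v 1)
    obtain ⟨b, hb, hwb⟩ := exists_proj hpd (Pi.single w 1)
    have hform_nonneg : ∀ z : V → ℝ, (∀ i, i ∉ S → z i = 0) → 0 ≤ z ⬝ᵥ (A⁻¹ *ᵥ z) := by
      intro z hz
      by_cases h : z = 0
      · rw [h]; simp
      · exact (hpd z hz h).le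
    have hk := key (hN.symm A hA) (hN.unit A hA) hne hvS hwS
      (fun t => hN.unit _ (hN.free A hA v w hvw t)) (path A hA hSA) ha hb hva hwb
    set vh : V → ℝ := Pi.single v 1 + a with hvh
    set wh : V → ℝ := Pi.single w 1 + b with hwh
    have hsv : vh ⬝ᵥ (A⁻¹ *ᵥ vh) < 0 := by
      have h1 : a ⬝ᵥ (A⁻¹ *ᵥ vh) = 0 := dot_supp ha hva
      have h2 : (Pi.single v (1 : ℝ)) ⬝ᵥ (A⁻¹ *ᵥ (Pi.single v 1)) =
          vh ⬝ᵥ (A⁻¹ *ᵥ vh) + a ⬝ᵥ (A⁻¹ *ᵥ a) := by
        have h3 : (Pi.single v (1 : ℝ) : V → ℝ) = vh - a := by rw [hvh]; abel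
        rw [h3, mulVec_sub, dotProduct_sub, sub_dotProduct, sub_dotProduct,
          form_comm hB vh a, h1]
        ring
      rw [single_form] at h2
      have := hform_nonneg a ha
      linarith
    have hsw0 : 0 ≤ wh ⬝ᵥ (A⁻¹ *ᵥ wh) := by
      by_contra h
      push Not at h
      exact hk (mul_pos_of_neg_of_neg hsv h)
    have hwhw : wh w = 1 := by
      rw [hwh, Pi.add_apply, Pi.single_eq_same, hb w hwS, add_zero]
    have hvhw : vh w = 0 := by
      rw [hvh, Pi.add_apply, Pi.single_eq_of_ne hne.symm, ha w hwS, add_zero]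
    have hsw : 0 < wh ⬝ᵥ (A⁻¹ *ᵥ wh) := by
      rcases hsw0.lt_or_eq with h | h
      · exact h
      · exfalso
        obtain ⟨η, hη, A', hA', he⟩ := perturb hN hA w (-1) (by simp)
        have hmv : ∀ x : V → ℝ, A'⁻¹ *ᵥ x = A⁻¹ *ᵥ x + (-1 * η * x w) • Pi.single w (1 : ℝ) := by
          intro x
          rw [he, add_mulVec, smul_mulVec, vecMulVec_mulVec]
          congr 1
          ext i
          simp
          ring
        have hSA' : ∀ s ∈ S, NI G s ∧ 0 < A'⁻¹ s s := by
          intro s hs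
          refine ⟨(hSA s hs).1, ?_⟩
          have hsw' : s ≠ w := by rintro rfl; exact hwS hs
          rw [he, pert_apply, Pi.single_eq_of_ne hsw']
          have := (hSA s hs).2
          linarith
        have hva' : ∀ i ∈ S, (A'⁻¹ *ᵥ (Pi.single v 1 + a)) i = 0 := by
          intro i hi
          have hiw : i ≠ w := by rintro rfl; exact hwS hi
          rw [hmv, Pi.add_apply, hva i hi, Pi.smul_apply, Pi.single_eq_of_ne hiw, smul_zero,
            add_zero]
        have hwb' : ∀ i ∈ S, (A'⁻¹ *ᵥ (Pi.single w 1 + b)) i = 0 := by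
          intro i hi
          have hiw : i ≠ w := by rintro rfl; exact hwS hi
          rw [hmv, Pi.add_apply, hwb i hi, Pi.smul_apply, Pi.single_eq_of_ne hiw, smul_zero,
            add_zero]
        have hk' := key (hN.symm A' hA') (hN.unit A' hA') hne hvS hwS
          (fun t => hN.unit _ (hN.free A' hA' v w hvw t)) (path A' hA' hSA') ha hb hva' hwb'
        apply hk'
        rw [← hvh, ← hwh, hmv, hmv, hvhw, hwhw, dotProduct_add, dotProduct_add, dotProduct_smul,
          dotProduct_smul, dotProduct_single, dotProduct_single, hvhw, hwhw, ← h]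
        have : (vh ⬝ᵥ A⁻¹ *ᵥ vh + (-1 * η * 0) • (0 * 1)) * (0 + (-1 * η * 1) • (1 * 1)) =
            (-(vh ⬝ᵥ A⁻¹ *ᵥ vh)) * η := by
          simp only [smul_eq_mul]; ring
        rw [this]
        exact mul_pos (by linarith) hη
    intro z hz hz0
    set β := z w with hβ
    set z' : V → ℝ := z - β • wh with hz'
    have hz'S : ∀ i, i ∉ S → z' i = 0 := by
      intro i hi
      by_cases hiw : i = w
      · subst hiw
        rw [hz', Pi.sub_apply, Pi.smul_apply, hwhw, hβ]; simp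
      · rw [hz', Pi.sub_apply, Pi.smul_apply, hz i (by rw [mem_insert]; tauto), hwh, Pi.add_apply,
          Pi.single_eq_of_ne hiw, hb i hi]; simp
    have hz2 : z = β • wh + z' := by rw [hz']; abel
    have horth : z' ⬝ᵥ (A⁻¹ *ᵥ wh) = 0 := dot_supp hz'S hwb
    have horth' : wh ⬝ᵥ (A⁻¹ *ᵥ z') = 0 := by rw [form_comm hB]; exact horth
    have hform : z ⬝ᵥ (A⁻¹ *ᵥ z) = β ^ 2 * (wh ⬝ᵥ (A⁻¹ *ᵥ wh)) + z' ⬝ᵥ (A⁻¹ *ᵥ z') := by
      rw [hz2, mulVec_add, mulVec_smul, dotProduct_add, add_dotProduct, add_dotProduct,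
        smul_dotProduct, dotProduct_smul, smul_dotProduct, dotProduct_smul, horth, horth']
      simp only [smul_eq_mul]
      ring
    rw [hform]
    have h5 := hform_nonneg z' hz'S
    by_cases hβ0 : β = 0
    · have hz'0 : z' ≠ 0 := by
        intro h
        apply hz0
        rw [hz2, h, hβ0]; simp
      have := hpd z' hz'S hz'0
      rw [hβ0]; linarith
    · have : 0 < β ^ 2 * (wh ⬝ᵥ (A⁻¹ *ᵥ wh)) := mul_pos (by positivity) hsw
      linarith

end Pool.Agent.X254.MC
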