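import Mathlib

set_option autoImplicit false

/-! Numbers of positive and negative eigenvalues and definite subspaces. -/

namespace Pool.Agent.X254.MC

open Matrix Finset

variable {V : Type*} [Fintype V] [DecidableEq V]

lemma quad_eq {A : Matrix V V ℝ} (hA : A.IsHermitian) (z : V → ℝ) :
    z ⬝ᵥ (A *ᵥ z) = ∑ i, hA.eigenvalues i *
      ((star (hA.eigenvectorUnitary : Matrix V V ℝ)) *ᵥ z) i ^ 2 := by
  have h1 : A = (hA.eigenvectorUnitary : Matrix V V ℝ) * diagonal hA.eigenvalues *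
      star (hA.eigenvectorUnitary : Matrix V V ℝ) := by
    have := hA.spectral_theorem
    rw [Unitary.conjStarAlgAut_apply] at this
    exact this
  set U := (hA.eigenvectorUnitary : Matrix V V ℝ)
  conv_lhs => rw [h1]
  rw [← mulVec_mulVec, ← mulVec_mulVec, dotProduct_mulVec]
  have h2 : z ᵥ* U = (star U) *ᵥ z := by
    rw [star_eq_conjTranspose, conjTranspose_eq_transpose_of_trivial, mulVec_transpose]
  rw [h2]
  unfold dotProduct
  apply sum_congr rfl
  intro i _
  rw [mulVec_diagonal]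
  ring

theorem count_eig {A : Matrix V V ℝ} (hA : A.IsHermitian) (ε : ℝ) {ι : Type*} [Fintype ι]
    [DecidableEq ι] (φ : (ι → ℝ) →ₗ[ℝ] (V → ℝ))
    (hφ : ∀ c, c ≠ 0 → 0 < ε * (φ c ⬝ᵥ (A *ᵥ φ c))) :
    Fintype.card ι ≤ (univ.filter (fun i => 0 < ε * hA.eigenvalues i)).card := by
  classical
  by_contra hlt
  push Not at hlt
  set S := {i // 0 < ε * hA.eigenvalues i}
  have hcard : Fintype.card S = (univ.filter (fun i => 0 < ε * hA.eigenvalues i)).card :=
    Fintype.card_subtype _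
  let ψ : (ι → ℝ) →ₗ[ℝ] (S → ℝ) :=
    (LinearMap.funLeft ℝ ℝ (fun i : S => (i : V))) ∘ₗ
      (Matrix.mulVecLin (star (hA.eigenvectorUnitary : Matrix V V ℝ))) ∘ₗ φ
  have hni : ¬ Function.Injective ψ := by
    intro hinj
    have := LinearMap.finrank_le_finrank_of_injective hinj
    rw [Module.finrank_fintype_fun_eq_card, Module.finrank_fintype_fun_eq_card, hcard] at this
    omega
  have hker : LinearMap.ker ψ ≠ ⊥ := by
    intro h; exact hni (LinearMap.ker_eq_bot.1 h)
  obtain ⟨c, hc, hc0⟩ := (Submodule.ne_bot_iff _).1 hker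
  rw [LinearMap.mem_ker] at hc
  have h1 := hφ c hc0
  rw [quad_eq hA, mul_sum] at h1
  have h2 : ∑ i, ε * (hA.eigenvalues i *
      ((star (hA.eigenvectorUnitary : Matrix V V ℝ)) *ᵥ φ c) i ^ 2) ≤ 0 := by
    apply sum_nonpos
    intro i _
    by_cases hi : 0 < ε * hA.eigenvalues i
    · have h3 : ψ c ⟨i, hi⟩ = 0 := by rw [hc]; rfl
      have h4 : ((star (hA.eigenvectorUnitary : Matrix V V ℝ)) *ᵥ φ c) i = 0 := h3
      rw [h4]; simp
    · push Not at hi
      rw [← mul_assoc]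
      exact mul_nonpos_of_nonpos_of_nonneg hi (sq_nonneg _)
  linarith

/-- `A` has exactly `p` positive and exactly `q` negative eigenvalues -/
def HasInertia (A : Matrix V V ℝ) (p q : ℕ) : Prop :=
  ∃ h : A.IsHermitian, (univ.filter (fun i => 0 < h.eigenvalues i)).card = p ∧
    (univ.filter (fun i => h.eigenvalues i < 0)).card = q

lemma le_pos {A : Matrix V V ℝ} {p q : ℕ} (h : HasInertia A p q) {ι : Type*} [Fintype ι]
    [DecidableEq ι] (φ : (ι → ℝ) →ₗ[ℝ] (V → ℝ))
    (hφ : ∀ c, c ≠ 0 → 0 < (φ c ⬝ᵥ (A *ᵥ φ c))) : Fintype.card ι ≤ p := by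
  obtain ⟨hA, h1, h2⟩ := h
  have := count_eig hA 1 φ (fun c hc => by rw [one_mul]; exact hφ c hc)
  simp only [one_mul] at this
  rw [← h1]; exact this

lemma le_neg {A : Matrix V V ℝ} {p q : ℕ} (h : HasInertia A p q) {ι : Type*} [Fintype ι]
    [DecidableEq ι] (φ : (ι → ℝ) →ₗ[ℝ] (V → ℝ))
    (hφ : ∀ c, c ≠ 0 → (φ c ⬝ᵥ (A *ᵥ φ c)) < 0) : Fintype.card ι ≤ q := by
  obtain ⟨hA, h1, h2⟩ := h
  have := count_eig hA (-1) φ (fun c hc => by have := hφ c hc; linarith)
  have h3 : (univ.filter (fun i => 0 < -1 * hA.eigenvalues i)) =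
      (univ.filter (fun i => hA.eigenvalues i < 0)) := by
    ext i
    simp only [mem_filter, mem_univ, true_and]
    constructor <;> intro h <;> linarith
  rw [h3] at this
  rw [← h2]; exact this

lemma inertia_sum_le {A : Matrix V V ℝ} {p q : ℕ} (h : HasInertia A p q) :
    p + q ≤ Fintype.card V := by
  obtain ⟨hA, h1, h2⟩ := h
  rw [← h1, ← h2, ← card_union_of_disjoint]
  · exact card_le_univ _
  · rw [disjoint_left]
    intro i hi hi'
    rw [mem_filter] at hi hi'
    linarith [hi.2, hi'.2]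

end Pool.Agent.X254.MC
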